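import Pool.Agent.N319.LE.Stm
import Pool.Agent.Y37.NE.ABS2

/-!
Existence of solutions on the Fourier side (part LE/KSOL of the project NSP/LE of helper319).
-/

open MeasureTheory Set Filter Topology
open scoped ContDiff

namespace Pool.Agent.N279.LE

open Pool.Agent.H356R3.NS (C3 Sym Fam at' nk pw dt one_le_pw pw_pos)
open Pool.Agent.Y5.E (Adm ASol2 Rapid Sk bl)
open Pool.Agent.N319.LE

theorem pw_neg (k : Fq) : pw (-k) = pw k := by
  unfold pw Pool.Agent.H356R3.NS.l1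
  simp

theorem nk_neg (k : Fq) : nk (-k) = nk k := by
  unfold nk Pool.Agent.H356R3.NS.sq
  simp

theorem hx_sym (z : Fq × Fin 3 → ℝ) : Sym (hx z) := by
  intro k i
  apply Complex.ext
  · simp only [hx, neg_neg, Complex.star_def, Complex.conj_re]
    ring
  · simp only [hx, neg_neg, Complex.star_def, Complex.conj_im]
    ring

theorem hx_hz {x : Fq → C3} (h : Sym x) : hx (hz x) = x := by
  funext k i
  have h1 := h k i
  have hre : (x (-k) i).re = (x k i).re := by rw [h1]; simp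
  have him : (x (-k) i).im = -(x k i).im := by rw [h1]; simp
  apply Complex.ext
  · simp only [hx, hz]
    rw [hre, him]
    ring
  · simp only [hx, hz]
    rw [hre, him]
    ring

theorem hx_norm (z : Fq × Fin 3 → ℝ) (k : Fq) {B : ℝ} (hB : ∀ i, |z (k, i)| ≤ B)
    (hB' : ∀ i, |z (-k, i)| ≤ B) : ‖hx z k‖ ≤ 2 * B := by
  have hB0 : 0 ≤ B := (abs_nonneg _).trans (hB 0)
  rw [pi_norm_le_iff_of_nonneg (by linarith)]
  intro i
  refine (Complex.norm_le_abs_re_add_abs_im _).trans ?_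
  have h1 := abs_le.1 (hB i)
  have h2 := abs_le.1 (hB' i)
  have h3 : |(hx z k i).re| ≤ B := by
    simp only [hx]
    rw [abs_le]
    constructor <;> linarith [h1.1, h1.2, h2.1, h2.2]
  have h4 : |(hx z k i).im| ≤ B := by
    simp only [hx]
    rw [abs_le]
    constructor <;> linarith [h1.1, h1.2, h2.1, h2.2]
  linarith

theorem sum_one : Summable fun n : ℤ => (1 + (n : ℝ) ^ 2)⁻¹ := by
  have h1 : Summable fun n : ℤ => 1 / (n : ℝ) ^ 2 :=
    Real.summable_one_div_int_pow.mpr (by norm_num)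
  have h2 : Summable fun n : ℤ => if n = 0 then (1 : ℝ) else 0 :=
    summable_of_ne_finset_zero (s := {0}) (by
      intro b hb
      rw [Finset.mem_singleton] at hb
      simp [hb])
  refine Summable.of_nonneg_of_le (fun n => by positivity) (fun n => ?_) (h1.add h2)
  by_cases hn : n = 0
  · subst hn; simp
  · rw [if_neg hn, add_zero, one_div]
    have : (0 : ℝ) < (n : ℝ) ^ 2 := by positivity
    exact inv_anti₀ this (by linarith)

theorem pw_ge (k : Fq) (i : Fin 3) : 1 + (k i : ℝ) ^ 2 ≤ pw k ^ 2 := by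
  have h1 : |(k i : ℝ)| ≤ Pool.Agent.H356R3.NS.l1 k :=
    Finset.single_le_sum (f := fun i => |(k i : ℝ)|) (fun j _ => abs_nonneg _) (Finset.mem_univ i)
  have h2 : pw k = 1 + Pool.Agent.H356R3.NS.l1 k := rfl
  have h3 := abs_nonneg (k i : ℝ)
  have h4 := sq_abs (k i : ℝ)
  rw [h2, ← h4]
  nlinarith

theorem pw_term (k : Fq) : (pw k ^ 6)⁻¹ ≤ ∏ i, (1 + (k i : ℝ) ^ 2)⁻¹ := by
  rw [Finset.prod_inv_distrib]
  have hp : 0 < ∏ i, (1 + (k i : ℝ) ^ 2) := Finset.prod_pos fun i _ => by positivity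
  refine inv_anti₀ hp ?_
  calc ∏ i, (1 + (k i : ℝ) ^ 2) ≤ ∏ _i : Fin 3, pw k ^ 2 :=
        Finset.prod_le_prod (fun i _ => by positivity) fun i _ => pw_ge k i
    _ = pw k ^ 6 := by
      rw [Finset.prod_const, Finset.card_univ, Fintype.card_fin, ← pow_mul]

theorem pw_sum : Summable fun k : Fq => (pw k ^ 6)⁻¹ := by
  have hn : ∀ k : Fq, 0 ≤ (pw k ^ 6)⁻¹ := fun k => inv_nonneg.2 (pow_nonneg (pw_pos k).le _)
  have hf : ∀ n : ℤ, 0 ≤ (1 + (n : ℝ) ^ 2)⁻¹ := fun n => by positivity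
  refine summable_of_sum_le (c := (∑' n : ℤ, (1 + (n : ℝ) ^ 2)⁻¹) ^ 3) hn fun s => ?_
  have hsub : s ⊆ Fintype.piFinset (fun i : Fin 3 => (s.image (fun k : Fq => k i) : Finset ℤ)) := by
    intro k hk
    rw [Fintype.mem_piFinset]
    intro i
    exact Finset.mem_image_of_mem _ hk
  calc ∑ k ∈ s, (pw k ^ 6)⁻¹ ≤ ∑ k ∈ s, ∏ i, (1 + (k i : ℝ) ^ 2)⁻¹ :=
        Finset.sum_le_sum fun k _ => pw_term k
    _ ≤ ∑ k ∈ Fintype.piFinset (fun i : Fin 3 => (s.image (fun k : Fq => k i) : Finset ℤ)),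
          ∏ i, (1 + (((k i : ℤ)) : ℝ) ^ 2)⁻¹ :=
        Finset.sum_le_sum_of_subset_of_nonneg hsub fun k _ _ =>
          Finset.prod_nonneg fun i _ => hf _
    _ = ∏ i : Fin 3, ∑ n ∈ (s.image (fun k : Fq => k i) : Finset ℤ), (1 + ((n : ℤ) : ℝ) ^ 2)⁻¹ := by
        rw [Finset.prod_univ_sum]
    _ ≤ ∏ _i : Fin 3, ∑' n : ℤ, (1 + (n : ℝ) ^ 2)⁻¹ :=
        Finset.prod_le_prod (fun i _ => Finset.sum_nonneg fun n _ => hf n) fun i _ =>
          sum_one.sum_le_tsum _ fun n _ => hf n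
    _ = (∑' n : ℤ, (1 + (n : ℝ) ^ 2)⁻¹) ^ 3 := by simp

theorem hz_le (x : Fq → C3) (k : Fq) (i : Fin 3) : |hz x (k, i)| ≤ 2 * ‖x k‖ := by
  have h1 : ‖x k i‖ ≤ ‖x k‖ := norm_le_pi_norm (x k) i
  have h2 := Complex.abs_re_le_norm (x k i)
  have h3 := Complex.abs_im_le_norm (x k i)
  have h4 : |hz x (k, i)| ≤ |(x k i).re| + |(x k i).im| := abs_sub _ _
  linarith

theorem sk_hz {x : Fq → C3} (hx0 : Rp x) (m : ℕ) : Sk rI m (hz x) := by
  obtain ⟨C, hC⟩ := hx0 (3 * m + 3)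
  have h1 : Summable fun p : Fq × Fin 3 => (pw p.1 ^ 6)⁻¹ * (1 : ℝ) := by
    refine Summable.mul_of_nonneg (f := fun k : Fq => (pw k ^ 6)⁻¹) (g := fun _ : Fin 3 => (1 : ℝ))
      pw_sum (Summable.of_finite) (fun k => ?_) (fun _ => zero_le_one)
    exact inv_nonneg.2 (pow_nonneg (pw_pos k).le _)
  refine Summable.of_nonneg_of_le (fun p => sq_nonneg _) (fun p => ?_) (h1.mul_left ((2 * C) ^ 2))
  obtain ⟨k, i⟩ := p
  have hp := pw_pos k
  have h2 := hC k
  have h3 := hz_le x k i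
  have h4 : |rI (k, i) ^ m * hz x (k, i)| * pw k ^ 3 ≤ 2 * C := by
    have e1 : rI (k, i) ^ m = pw k ^ (3 * m) := by
      unfold rI
      rw [← pow_mul]
    rw [e1, abs_mul, abs_of_pos (pow_pos hp _)]
    calc pw k ^ (3 * m) * |hz x (k, i)| * pw k ^ 3 ≤ pw k ^ (3 * m) * (2 * ‖x k‖) * pw k ^ 3 := by
          gcongr
      _ = 2 * (pw k ^ (3 * m + 3) * ‖x k‖) := by rw [pow_add]; ring
      _ ≤ 2 * C := by linarith
  have h5 : 0 ≤ |rI (k, i) ^ m * hz x (k, i)| * pw k ^ 3 := by positivity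
  have h6 : (|rI (k, i) ^ m * hz x (k, i)| * pw k ^ 3) ^ 2 ≤ (2 * C) ^ 2 :=
    pow_le_pow_left₀ h5 h4 2
  rw [mul_pow, sq_abs, ← pow_mul] at h6
  have h7 : (0 : ℝ) < pw k ^ (3 * 2) := pow_pos hp _
  change _ ≤ (2 * C) ^ 2 * ((pw k ^ 6)⁻¹ * 1)
  rw [mul_one, ← div_eq_mul_inv, le_div_iff₀ (by positivity)]
  exact h6

theorem lev {z : Fq × Fin 3 → ℝ} {j : ℕ} (h : Sk rI j z) (k : Fq) (i : Fin 3) :
    pw k ^ (3 * j) * |z (k, i)| ≤ √(Pool.Agent.Y5.E.nk rI j z) := by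
  have h1 : (rI (k, i) ^ j * z (k, i)) ^ 2 ≤ Pool.Agent.Y5.E.nk rI j z :=
    h.le_tsum (k, i) fun _ _ => sq_nonneg _
  have h2 := Real.abs_le_sqrt h1
  have e1 : rI (k, i) ^ j = pw k ^ (3 * j) := by
    unfold rI
    rw [← pow_mul]
  rwa [e1, abs_mul, abs_of_pos (pow_pos (pw_pos k) _)] at h2

theorem hx_lev {z : Fq × Fin 3 → ℝ} {j : ℕ} (h : Sk rI j z) {M : ℝ}
    (hM : Pool.Agent.Y5.E.nk rI j z ≤ M) (k : Fq) :
    ‖hx z k‖ ≤ 2 * (√M / pw k ^ (3 * j)) := by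
  have hp : 0 < pw k ^ (3 * j) := pow_pos (pw_pos k) _
  refine hx_norm z k (fun i => ?_) (fun i => ?_)
  · rw [le_div_iff₀ hp, mul_comm]
    exact (lev h k i).trans (Real.sqrt_le_sqrt hM)
  · rw [le_div_iff₀ hp, mul_comm, ← pw_neg]
    exact (lev h (-k) i).trans (Real.sqrt_le_sqrt hM)

theorem rp_hx {z : Fq × Fin 3 → ℝ} (h : ∀ j, Sk rI j z) : Rp (hx z) := by
  intro m
  refine ⟨2 * √(Pool.Agent.Y5.E.nk rI m z), fun k => ?_⟩
  have h1 := hx_lev (h m) le_rfl k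
  have hp := pw_pos k
  have h2 : pw k ^ m ≤ pw k ^ (3 * m) := pow_le_pow_right₀ (one_le_pw k) (by omega)
  have hp3 : 0 < pw k ^ (3 * m) := pow_pos hp _
  calc pw k ^ m * ‖hx z k‖ ≤ pw k ^ (3 * m) * (2 * (√(Pool.Agent.Y5.E.nk rI m z) /
        pw k ^ (3 * m))) := by gcongr
    _ = 2 * √(Pool.Agent.Y5.E.nk rI m z) := by field_simp

theorem hx_deriv {z : Fq × Fin 3 → ℝ → ℝ} {z' : Fq × Fin 3 → ℝ} {s : Set ℝ} {t : ℝ}
    (h : ∀ a, HasDerivWithinAt (z a) (z' a) s t) (k : Fq) :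
    HasDerivWithinAt (fun τ => hx (fun a => z a τ) k) (hx z' k) s t := by
  rw [hasDerivWithinAt_pi]
  intro i
  have e : ∀ w : Fq × Fin 3 → ℝ, hx w k i = (((w (k, i) + w (-k, i)) / 2 : ℝ) : ℂ) +
      (((w (-k, i) - w (k, i)) / 2 : ℝ) : ℂ) * Complex.I := by
    intro w
    apply Complex.ext <;> simp [hx]
  simp only [e]
  have h1 := ((h (k, i)).add (h (-k, i))).div_const 2
  have h2 := ((h (-k, i)).sub (h (k, i))).div_const 2
  exact (h1.ofReal_comp).add ((h2.ofReal_comp).mul_const Complex.I)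

theorem hx_lin (c : ℝ) (w v : Fq × Fin 3 → ℝ) (k : Fq) :
    hx (fun a => -(dI c a * w a) + v a) k = -(c * nk k ^ 2) • hx w k + hx v k := by
  funext i
  apply Complex.ext
  · simp only [hx, dI, nk_neg, Pi.add_apply, Pi.smul_apply, Complex.add_re, Complex.smul_re,
      smul_eq_mul]
    ring
  · simp only [hx, dI, nk_neg, Pi.add_apply, Pi.smul_apply, Complex.add_im, Complex.smul_im,
      smul_eq_mul]
    ring

theorem dt_deriv {f : ℝ → C3} {f' : C3} {s : Set ℝ} {t : ℝ} (k : Fq)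
    (h : HasDerivWithinAt f f' s t) :
    HasDerivWithinAt (fun τ => dt k (f τ)) (dt k f') s t := by
  rw [hasDerivWithinAt_pi] at h
  unfold dt
  exact HasDerivWithinAt.fun_sum fun j _ => (h j).const_mul _

theorem dt_lin (k : Fq) (r : ℝ) (v w : C3) : dt k (r • v + w) = r • dt k v + dt k w := by
  unfold dt
  rw [Finset.smul_sum, ← Finset.sum_add_distrib]
  refine Finset.sum_congr rfl fun j _ => ?_
  rw [Pi.add_apply, Pi.smul_apply, mul_add, mul_smul_comm]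

theorem ksol : S_KSOL := by
  intro hadm N hN hS c hc a ha hsym hdiv
  obtain ⟨hA, hB⟩ := hadm N hN c hc
  obtain ⟨-, hex⟩ := Pool.Agent.Y37.NE.t_ABS2 (Fq × Fin 3) (dI c) rI (ck N) hA
  obtain ⟨z, hz0, hz1⟩ := hex (hz a) (fun m => sk_hz ha m)
  obtain ⟨T2, hT2, hz2, hz3⟩ : ∃ T2, 0 < T2 ∧ ASol2 (dI c) rI (ck N) T2 z ∧ Rapid rI T2 z := by
    rcases hz1 with h | ⟨T, h1, h2, h3, -⟩
    · exact ⟨1, one_pos, h 1⟩
    · exact ⟨T, h1, h2, h3⟩
  have hsk : ∀ t ∈ Ico 0 T2, ∀ m, Sk rI m (fun a => z a t) := by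
    intro t ht m
    obtain ⟨M, hM⟩ := hz3 m t ht.2
    exact (hM t ⟨ht.1, le_rfl⟩).1
  have hrp : ∀ t ∈ Ico 0 T2, Rp (hx (fun a => z a t)) := fun t ht => rp_hx (hsk t ht)
  have key : ∀ t ∈ Ico 0 T2, ∀ k, HasDerivWithinAt (fun τ => hx (fun a => z a τ) k)
      (-(c * nk k ^ 2) • hx (fun a => z a t) k +
        N (hx fun a => z a t) (hx fun a => z a t) k) (Ico 0 T2) t := by
    intro t ht k
    have h1 := hx_deriv (fun a => hz2.deriv a t ht) k
    have h2 : (fun a => -(dI c a * z a t) + bl (ck N) (fun a => z a t) (fun a => z a t) a) =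
        fun a => -(dI c a * z a t) + hz (N (hx fun a => z a t) (hx fun a => z a t)) a := by
      funext a
      rw [hB _ _ (hsk t ht) (hsk t ht) a]
    rw [h2, hx_lin, hx_hz (hS _ _ (hrp t ht) (hrp t ht)).1] at h1
    exact h1
  -- divergence zero
  have hdv : ∀ k, ∀ x ∈ Ico 0 T2, dt k (hx (fun a => z a x) k) = 0 := by
    intro k x hx
    obtain ⟨l, hl⟩ : ∃ l, l = c * nk k ^ 2 := ⟨_, rfl⟩
    have hE : ∀ t ∈ Ico 0 T2, HasDerivWithinAt (fun τ : ℝ => Real.exp (l * τ) •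
        dt k (Pool.Agent.N319.LE.hx (fun a => z a τ) k)) 0 (Ico 0 T2) t := by
      intro t ht
      have h1 := dt_deriv k (key t ht k)
      rw [dt_lin, (hS _ _ (hrp t ht) (hrp t ht)).2 k, add_zero, ← hl] at h1
      have h2 : HasDerivWithinAt (fun τ : ℝ => Real.exp (l * τ)) (Real.exp (l * t) * l)
          (Ico 0 T2) t := by
        have h3 : HasDerivAt (fun τ : ℝ => l * τ) l t := by
          simpa using (hasDerivAt_id t).const_mul l
        exact h3.exp.hasDerivWithinAt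
      have h4 := h2.fun_smul h1
      have e : Real.exp (l * t) • -l • dt k (Pool.Agent.N319.LE.hx (fun a => z a t) k) +
          (Real.exp (l * t) * l) • dt k (Pool.Agent.N319.LE.hx (fun a => z a t) k) = 0 := by
        rw [smul_smul, ← add_smul]
        have : Real.exp (l * t) * -l + Real.exp (l * t) * l = 0 := by ring
        rw [this, zero_smul]
      rw [e] at h4
      exact h4
    have hsub : Icc 0 x ⊆ Ico 0 T2 := fun t ht => ⟨ht.1, ht.2.trans_lt hx.2⟩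
    have h1 := constant_of_has_deriv_right_zero (a := 0) (b := x)
      (fun t ht => ((hE t (hsub ht)).continuousWithinAt).mono hsub)
      (fun t ht => (hE t (hsub ⟨ht.1, ht.2.le⟩)).mono_of_mem_nhdsWithin (by
        have h5 : Ico t T2 ∈ 𝓝[Ici t] t := Ico_mem_nhdsGE (ht.2.trans_le hx.2.le)
        exact Filter.mem_of_superset h5 (Ico_subset_Ico_left ht.1))) x ⟨hx.1, le_rfl⟩
    have h2 : Pool.Agent.N319.LE.hx (fun a => z a 0) = a := by
      have : (fun a => z a 0) = hz a := funext hz0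
      rw [this, hx_hz hsym]
    beta_reduce at h1
    rw [h2, hdiv k, smul_zero] at h1
    exact (smul_eq_zero.1 h1).resolve_left (Real.exp_pos _).ne'
  -- the solution
  obtain ⟨T, hT⟩ : ∃ T, T = T2 / 2 := ⟨_, rfl⟩
  have hT0 : 0 < T := by rw [hT]; linarith
  have hTT : T < T2 := by rw [hT]; linarith
  obtain ⟨cl, hcl⟩ : ∃ cl : ℝ → ℝ, cl = fun t => max 0 (min t T) := ⟨_, rfl⟩
  have hclc : Continuous cl := by
    rw [hcl]
    fun_prop
  have hclm : ∀ t, cl t ∈ Icc 0 T := by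
    intro t
    rw [hcl]
    exact ⟨le_max_left _ _, max_le hT0.le (min_le_right _ _)⟩
  have hclm2 : ∀ t, cl t ∈ Ico 0 T2 := fun t => ⟨(hclm t).1, (hclm t).2.trans_lt hTT⟩
  have hcl1 : ∀ t ∈ Icc 0 T, cl t = t := by
    intro t ht
    rw [hcl]
    change max 0 (min t T) = t
    rw [min_eq_left ht.2, max_eq_right ht.1]
  refine ⟨T, hT0, fun k t => hx (fun a => z a (cl t)) k, ?_⟩
  refine ⟨?_, ?_, ?_, ?_, ?_, ?_⟩
  · intro k
    have : (fun a => z a (cl 0)) = hz a := by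
      funext b
      rw [hcl1 0 ⟨le_rfl, hT0.le⟩]
      exact hz0 b
    change hx (fun a => z a (cl 0)) k = a k
    rw [this, hx_hz hsym]
  · intro k
    have h1 : ContinuousOn (fun τ => hx (fun a => z a τ) k) (Ico 0 T2) :=
      fun t ht => (key t ht k).continuousWithinAt
    exact h1.comp_continuous hclc hclm2
  · intro m
    obtain ⟨M, hM⟩ := hz3 (m + 6) T hTT
    refine ⟨fun k => 2 * √M * (pw k ^ (m + 6))⁻¹, fun k => ?_, ?_, fun k t => ?_⟩
    · have := pw_pos k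
      positivity
    · have e : (fun k : Fq => pw k ^ m * (2 * √M * (pw k ^ (m + 6))⁻¹)) =
          fun k => 2 * √M * (pw k ^ 6)⁻¹ := by
        funext k
        have := pw_pos k
        rw [pow_add]
        field_simp
      rw [e]
      exact pw_sum.mul_left _
    · obtain ⟨h1, h2⟩ := hM (cl t) (hclm t)
      refine (hx_lev h1 h2 k).trans ?_
      have hp := pw_pos k
      have h3 : pw k ^ (m + 6) ≤ pw k ^ (3 * (m + 6)) :=
        pow_le_pow_right₀ (one_le_pw k) (by omega)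
      have h4 : (0 : ℝ) < pw k ^ (m + 6) := pow_pos hp _
      rw [div_eq_mul_inv, ← mul_assoc]
      exact mul_le_mul_of_nonneg_left (inv_anti₀ h4 h3) (by positivity)
  · intro k t ht
    have ht2 : t ∈ Ico 0 T2 := ⟨ht.1.le, ht.2.trans hTT⟩
    have h1 := (key t ht2 k).hasDerivAt (Ico_mem_nhds ht.1 ht2.2)
    have h2 : (fun τ => hx (fun a => z a (cl τ)) k) =ᶠ[𝓝 t] fun τ => hx (fun a => z a τ) k := by
      filter_upwards [Ioo_mem_nhds ht.1 ht.2] with τ hτ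
      rw [hcl1 τ ⟨hτ.1.le, hτ.2.le⟩]
    have h3 : cl t = t := hcl1 t ⟨ht.1.le, ht.2.le⟩
    have h4 := h1.congr_of_eventuallyEq h2
    have h5 : at' (fun k t => hx (fun a => z a (cl t)) k) t = hx (fun a => z a t) := by
      funext k
      change hx (fun a => z a (cl t)) k = _
      rw [h3]
    rw [h5]
    change HasDerivAt _ (-(c * nk k ^ 2) • hx (fun a => z a (cl t)) k + _) t
    rw [h3]
    exact h4
  · intro t k i
    exact hx_sym (fun a => z a (cl t)) k i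
  · intro k t
    exact hdv k (cl t) (hclm2 t)

end Pool.Agent.N279.LE
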